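import Pool.Agent.H.MP_16b74e_gt.C

namespace Pool.Agent.Results.MP_16b74e_gt.Equiv

open Set

/-- The metric of `V` is `d_l` for the graph `T` and the labeling `l : V → [0,∞)`: for `u ≠ v`,
`dist u v` is the largest label on the path from `u` to `v` (endpoints included). -/
def Generated {V : Type} [MetricSpace V] (T : SimpleGraph V) (l : V → ℝ) : Prop :=
  (∀ v, 0 ≤ l v) ∧ ∀ u v, u ≠ v → ∀ p : T.Walk u v, p.IsPath →
    IsGreatest (l '' {w | w ∈ p.support}) (dist u v)

/-- `R` is a ray: its vertices are `x 0, x 1, …` and its edges are `{x n, x (n+1)}`. -/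
def IsRay {V : Type} (R : SimpleGraph V) : Prop :=
  ∃ x : ℕ ≃ V, ∀ u v, R.Adj u v ↔ ∃ n, (u = x n ∧ v = x (n + 1)) ∨ (v = x n ∧ u = x (n + 1))

/-- no ray as a subgraph -/
def Rayless {V : Type} (T : SimpleGraph V) : Prop :=
  ¬ ∃ z : ℕ → V, Function.Injective z ∧ ∀ n, T.Adj (z n) (z (n + 1))

/-- exactly one vertex has more than two neighbours -/
def Starlike {V : Type} (T : SimpleGraph V) : Prop := ∃! c, 2 < (T.neighborSet c).encard

open Pool.Agent.H.MP_16b74e_gt in
theorem result (X : Type) [MetricSpace X] [IsUltrametricDist X] [Infinite X] :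
    (∃ X₀ : Set X, TotallyBounded X₀ ∧ X₀ ≠ univ ∧
        (∃ (R : SimpleGraph X₀) (l : X₀ → ℝ), IsRay R ∧ Generated R l) ∧
        CompleteSpace X ∧ Dense X₀) ↔
      (CompactSpace X ∧ ∃ (T : SimpleGraph X) (l : X → ℝ),
        T.IsTree ∧ Starlike T ∧ Rayless T ∧ Generated T l) := by
  constructor
  · rintro ⟨X₀, h1, h2, ⟨R, l, ⟨x, hx⟩, hg⟩, h3, h4⟩
    have hx' : H.MP_16b74e_gt.IsRay R x := hx
    have e : range (fun n => (x n : X)) = X₀ := by
      rw [show (fun n => (x n : X)) = Subtype.val ∘ x from rfl, x.surjective.range_comp,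
        Subtype.range_coe]
    obtain ⟨a, T, b, c, d, l', f⟩ := fwd (fun n => (x n : X)) (Subtype.val_injective.comp x.injective)
      (fun n => l (x n)) (fun n => hg.1 _)
      (fun n => Gen.adj hg ((hx _ _).2 ⟨n, Or.inl ⟨rfl, rfl⟩⟩))
      (fun i k j a b c => hx'.elim hg a b c) (by rwa [e]) (by rwa [e]) (by rwa [e])
    exact ⟨a, T, l', b, c, d, f⟩
  · rintro ⟨h1, T, l, h2, h3, -, h5⟩
    obtain ⟨c, hd, x, a, b⟩ := bwd h2 h3 h5
    let R : SimpleGraph ({c}ᶜ : Set X) :=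
      { Adj u v := ∃ n, (u = x n ∧ v = x (n + 1)) ∨ (v = x n ∧ u = x (n + 1))
        symm := ⟨fun _ _ h => h.imp fun _ => Or.symm⟩
        loopless := ⟨fun u ⟨n, h⟩ => by
          have := x.injective ((h.elim id id).1.symm.trans (h.elim id id).2)
          omega⟩ }
    have hR : H.MP_16b74e_gt.IsRay R x := fun _ _ => Iff.rfl
    refine ⟨{c}ᶜ, isCompact_univ.totallyBounded.subset (subset_univ _),
      fun e => (e.ge (mem_univ c)) rfl, ⟨R, fun v => l v, ⟨x, hR⟩,
        hR.gen (fun v => h5.1 v) a b⟩, inferInstance, hd⟩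

end Pool.Agent.Results.MP_16b74e_gt.Equiv
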